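import Mathlib

namespace Pool.Agent.H.MP_058405_al

open MonoidAlgebra

theorem split_of_reps {G ι : Type} [Group G] [Fintype G] [Fintype ι] (n : ι → ℕ)
    (ρ : ∀ i, G →* Matrix (Fin (n i)) (Fin (n i)) ℚ)
    (h1 : ∀ g : G, g ≠ 1 → ∑ i, (n i : ℚ) * (ρ i g).trace = 0)
    (h2 : ∑ i, n i * n i = Fintype.card G) :
    Nonempty (MonoidAlgebra ℚ G ≃ₐ[ℚ] ((i : ι) → Matrix (Fin (n i)) (Fin (n i)) ℚ)) := by
  classical
  let F : G →* ((i : ι) → Matrix (Fin (n i)) (Fin (n i)) ℚ) :=
    { toFun := fun g i => ρ i g
      map_one' := by funext i; simp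
      map_mul' := fun a b => by funext i; simp }
  let Φ := MonoidAlgebra.lift ℚ _ G F
  have key : ∀ (h : G) (a : MonoidAlgebra ℚ G),
      ∑ i, (n i : ℚ) * (ρ i h⁻¹ * Φ a i).trace = Fintype.card G * a.coeff h := by
    intro h a
    induction a using MonoidAlgebra.induction_linear with
    | zero => simp
    | add a b ha hb =>
      simp only [map_add, Pi.add_apply, mul_add, Matrix.trace_add, Finset.sum_add_distrib, ha, hb,
        coeff_add, Finsupp.add_apply]
    | single g c =>
      have e : ∀ i, (ρ i h⁻¹ * Φ (single g c) i).trace = c * (ρ i (h⁻¹ * g)).trace := by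
        intro i
        simp only [Φ, lift_single, Pi.smul_apply, map_mul]
        rw [Matrix.mul_smul, Matrix.trace_smul, smul_eq_mul]
        rfl
      simp only [e, mul_left_comm _ c, ← Finset.mul_sum]
      by_cases hg : g = h
      · subst hg
        simp only [inv_mul_cancel, map_one, Matrix.trace_one, Fintype.card_fin, coeff_single,
          Finsupp.single_eq_same]
        rw [← h2]; push_cast; ring
      · rw [h1 _ (fun e => hg (by rw [inv_mul_eq_one] at e; exact e.symm))]
        simp [coeff_single, Finsupp.single_apply, hg]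
  have hinj : Function.Injective Φ := by
    rw [injective_iff_map_eq_zero]
    intro a ha
    ext h
    have := key h a
    rw [ha] at this
    simp only [Pi.zero_apply, mul_zero, Matrix.trace_zero, Finset.sum_const_zero] at this
    have hc : (Fintype.card G : ℚ) ≠ 0 := by exact_mod_cast Fintype.card_ne_zero
    simpa using (mul_eq_zero.mp this.symm).resolve_left hc
  have hdim : Module.finrank ℚ (MonoidAlgebra ℚ G) =
      Module.finrank ℚ ((i : ι) → Matrix (Fin (n i)) (Fin (n i)) ℚ) := by
    rw [Module.finrank_eq_card_basis (MonoidAlgebra.basis G ℚ), Module.finrank_pi_fintype, ← h2]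
    simp [Module.finrank_matrix]
  have hsurj : Function.Surjective Φ :=
    (LinearMap.injective_iff_surjective_of_finrank_eq_finrank hdim (f := Φ.toLinearMap)).mp hinj
  exact ⟨AlgEquiv.ofBijective Φ ⟨hinj, hsurj⟩⟩

theorem real_of_split {P ι : Type} [Group P] [Finite P] [Fintype ι] (n : ι → ℕ)
    (φ : MonoidAlgebra ℚ P ≃ₐ[ℚ] ((i : ι) → Matrix (Fin (n i)) (Fin (n i)) ℚ)) (g : P) :
    ∃ u : P, u * g = g⁻¹ * u := by
  classical
  haveI := Fintype.ofFinite P
  by_contra hcon
  push Not at hcon
  set z : MonoidAlgebra ℚ P :=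
    ∑ u : P, (single (u * g * u⁻¹) 1 - single (u * g * u⁻¹)⁻¹ 1) with hz
  have hz0 : z ≠ 0 := by
    intro h
    have h1 := congrArg (fun a : MonoidAlgebra ℚ P => a.coeff g⁻¹) h
    simp only [hz, coeff_sum, coeff_sub, coeff_single, Finsupp.finset_sum_apply,
      Finsupp.sub_apply, coeff_zero, Finsupp.zero_apply, Finset.sum_sub_distrib] at h1
    have h2 : ∑ u : P, (Finsupp.single (u * g * u⁻¹) (1 : ℚ)) g⁻¹ = 0 := by
      refine Finset.sum_eq_zero fun u _ => ?_
      rw [Finsupp.single_apply, if_neg]
      intro e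
      exact hcon u (by rw [← e]; group)
    have h3 : 0 < ∑ u : P, (Finsupp.single (u * g * u⁻¹)⁻¹ (1 : ℚ)) g⁻¹ := by
      refine Finset.sum_pos' (fun u _ => ?_) ⟨1, Finset.mem_univ _, by simp⟩
      rw [Finsupp.single_apply]; split_ifs <;> norm_num
    linarith
  have hc1 : ∀ h : P, single h (1 : ℚ) * z = z * single h 1 := by
    intro h
    rw [hz, Finset.mul_sum, Finset.sum_mul]
    refine Fintype.sum_equiv (Equiv.mulLeft h) _ _ fun u => ?_
    simp only [mul_sub, sub_mul, single_mul_single, Equiv.coe_mulLeft, mul_one]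
    congr 2 <;> group
  have hc : ∀ a : MonoidAlgebra ℚ P, a * z = z * a := by
    intro a
    induction a using MonoidAlgebra.induction_linear with
    | zero => simp
    | add a b ha hb => rw [add_mul, mul_add, ha, hb]
    | single h c =>
      have : (single h c : MonoidAlgebra ℚ P) = c • single h 1 := by simp
      rw [this, smul_mul_assoc, mul_smul_comm, hc1]
  have hφ : φ z ≠ 0 := fun h => hz0 (φ.injective (by rw [h, map_zero]))
  obtain ⟨i, hi⟩ := Function.ne_iff.mp hφ
  obtain ⟨l, hl⟩ : φ z i ∈ Set.range (Matrix.scalar (Fin (n i))) := by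
    rw [Matrix.mem_range_scalar_iff_commute_single']
    intro a b
    have := congrArg (fun x => φ x i) (hc (φ.symm (Pi.single i (Matrix.single a b 1))))
    show _ * _ = _ * _
    simpa using this
  have hl0 : l ≠ 0 := by
    rintro rfl
    exact hi (by rw [← hl]; simp)
  set a := φ.symm (Pi.single i (φ z i)) with ha
  have ha0 : a ≠ 0 := by
    intro h
    have := congrArg (fun x => φ x i) h
    simp only [ha, AlgEquiv.apply_symm_apply, Pi.single_eq_same, map_zero] at this
    exact hi this
  have hza : z * a = l • a := by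
    apply φ.injective
    rw [map_mul, map_smul, ha, AlgEquiv.apply_symm_apply]
    funext j
    by_cases hj : j = i
    · subst hj
      simp only [Pi.mul_apply, Pi.single_eq_same, Pi.smul_apply]
      nth_rewrite 1 [← hl]
      rw [Matrix.scalar_apply, ← Matrix.smul_eq_diagonal_mul]
    · simp [Pi.single_eq_of_ne hj]
  have h0 : ∑ x : P, (z * a).coeff x * a.coeff x = 0 := by
    rw [hz, Finset.sum_mul]
    simp only [coeff_sum, Finsupp.finset_sum_apply, Finset.sum_mul, sub_mul, coeff_sub,
      Finsupp.sub_apply, coeff_single_mul_apply, one_mul, inv_inv]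
    rw [Finset.sum_comm]
    refine Finset.sum_eq_zero fun u _ => ?_
    rw [Finset.sum_sub_distrib, sub_eq_zero]
    generalize u * g * u⁻¹ = h
    symm
    refine Fintype.sum_equiv (Equiv.mulLeft h) _ _ fun x => ?_
    simp [mul_comm]
  rw [hza] at h0
  simp only [coeff_smul, Finsupp.smul_apply, smul_eq_mul, mul_assoc, ← Finset.mul_sum] at h0
  have h4 := (mul_eq_zero.mp h0).resolve_left hl0
  rw [Finset.sum_eq_zero_iff_of_nonneg (fun x _ => mul_self_nonneg _)] at h4
  apply ha0
  ext x
  simpa using h4 x (Finset.mem_univ _)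

end Pool.Agent.H.MP_058405_al
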