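import Mathlib
import Pool.Agent.H.MP_058405_al.D

namespace Pool.Agent.H.MP_058405_al

def fn (g : ℕ) : Fin 10 := ⟨g % 10, Nat.mod_lt _ (by norm_num)⟩

def ev {M : Type} [Monoid M] (f : Fin 10 → M) (w : List ℕ) : M := (w.map fun g => f (fn g)).prod

def rl : List (List ℕ × List ℕ) :=
  (List.range 10).map (fun i => (List.replicate (pp i) i, pwr i)) ++
  (List.range 10).map (fun i => (List.replicate (od i) i, [])) ++
  (List.range 10).flatMap (fun j => (List.range j).map fun i => ([j, i], i :: cj i j))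

def Rel {M : Type} [Monoid M] (f : Fin 10 → M) : Prop := ∀ x ∈ rl, ev f x.1 = ev f x.2

section
variable {M : Type} [Monoid M] (f : Fin 10 → M)

@[simp] theorem ev_nil : ev f [] = 1 := rfl

theorem ev_cons (g : ℕ) (w : List ℕ) : ev f (g :: w) = f (fn g) * ev f w := by simp [ev]

theorem ev_append (v w : List ℕ) : ev f (v ++ w) = ev f v * ev f w := by simp [ev]

theorem ev_replicate (e g : ℕ) : ev f (List.replicate e g) = f (fn g) ^ e := by simp [ev]

theorem map_ev {M' : Type} [Monoid M'] (φ : M →* M') (w : List ℕ) :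
    φ (ev f w) = ev (fun i => φ (f i)) w := by
  induction w with
  | nil => simp
  | cons g w ih => rw [ev_cons, ev_cons, map_mul, ih]

end

theorem rl1 : ∀ i < 10, (List.replicate (pp i) i, pwr i) ∈ rl ∧
    (List.replicate (od i) i, []) ∈ rl ∧ 0 < od i ∧ 0 < pp i ∧ ∀ g ∈ pwr i, i + 1 ≤ g ∧ g < 10 := by
  decide +kernel

theorem rl2 : ∀ j < 10, ∀ i < j, ([j, i], i :: cj i j) ∈ rl ∧
    ∀ g ∈ cj i j, i + 1 ≤ g ∧ g < 10 := by
  have h1 : ∀ j < 10, ∀ i < j, ([j, i], i :: cj i j) ∈ rl := by decide +kernel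
  have h2 : ∀ j < 10, ∀ i < j, ∀ g ∈ cj i j, i + 1 ≤ g ∧ g < 10 := by decide +kernel
  exact fun j hj i hi => ⟨h1 j hj i hi, h2 j hj i hi⟩

def rels : Set (FreeGroup (Fin 10)) :=
  {r | ∃ x ∈ rl, r = ev FreeGroup.of x.1 * (ev FreeGroup.of x.2)⁻¹}

def GG : Type := PresentedGroup rels

instance : Group GG := inferInstanceAs (Group (PresentedGroup rels))

def aa (i : Fin 10) : GG := PresentedGroup.of i

theorem rel_aa : Rel aa := by
  intro x hx
  have h1 : PresentedGroup.mk rels (ev FreeGroup.of x.1 * (ev FreeGroup.of x.2)⁻¹) = 1 :=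
    PresentedGroup.one_of_mem ⟨x, hx, rfl⟩
  rw [map_mul, map_inv, mul_inv_eq_one, map_ev, map_ev] at h1
  exact h1

theorem fn_val (i : Fin 10) : fn i.val = i := Fin.ext (Nat.mod_eq_of_lt i.2)

theorem exists_hom {M : Type} [Monoid M] (f : Fin 10 → M) (h : Rel f) :
    ∃ φ : GG →* M, ∀ w, φ (ev aa w) = ev f w := by
  have hu : ∀ i, IsUnit (f i) := by
    intro i
    obtain ⟨-, h1, h2, -⟩ := rl1 i i.2
    have := h _ h1
    simp only [ev_replicate, ev_nil, fn_val] at this
    exact IsUnit.of_pow_eq_one this h2.ne'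
  choose u hu using hu
  have hr : ∀ r ∈ rels, FreeGroup.lift u r = 1 := by
    rintro r ⟨x, hx, rfl⟩
    rw [map_mul, map_inv, mul_inv_eq_one, map_ev, map_ev]
    apply Units.ext
    have e : ∀ w, ((ev (fun i => FreeGroup.lift u (FreeGroup.of i)) w : Mˣ) : M) = ev f w := by
      intro w
      have := map_ev (fun i => FreeGroup.lift u (FreeGroup.of i)) (Units.coeHom M) w
      simpa [hu] using this
    rw [e, e, h x hx]
  refine ⟨(Units.coeHom M).comp (PresentedGroup.toGroup hr), fun w => ?_⟩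
  rw [map_ev]
  congr 1
  funext i
  have : PresentedGroup.toGroup hr (PresentedGroup.of i) = u i := PresentedGroup.toGroup.of hr
  rw [← hu i, ← this]
  rfl

def Hi (i : ℕ) (w : List ℕ) : Prop := ∀ g ∈ w, i ≤ g ∧ g < 10

theorem Hi.append {i : ℕ} {v w : List ℕ} (hv : Hi i v) (hw : Hi i w) : Hi i (v ++ w) := by
  intro g hg
  rcases List.mem_append.mp hg with h | h
  exacts [hv g h, hw g h]

theorem Hi.tail {i g : ℕ} {w : List ℕ} (h : Hi i (g :: w)) : Hi i w :=
  fun x hx => h x (List.mem_cons_of_mem _ hx)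

theorem move1 {i : ℕ} : ∀ {w : List ℕ}, Hi (i + 1) w →
    ∃ w', Hi (i + 1) w' ∧ ev aa w * aa (fn i) = aa (fn i) * ev aa w' := by
  intro w
  induction w with
  | nil => intro h; exact ⟨[], h, by simp⟩
  | cons j w ih =>
    intro h
    obtain ⟨w', h1, h2⟩ := ih h.tail
    obtain ⟨hj1, hj2⟩ := h j List.mem_cons_self
    obtain ⟨h3, h4⟩ := rl2 j hj2 i hj1
    have h5 := rel_aa _ h3
    simp only [ev_cons, ev_nil, mul_one] at h5
    refine ⟨cj i j ++ w', Hi.append h4 h1, ?_⟩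
    rw [ev_cons, mul_assoc, h2, ← mul_assoc, h5, ev_append, mul_assoc]

theorem move2 {i : ℕ} (e : ℕ) : ∀ {w : List ℕ}, Hi (i + 1) w →
    ∃ w', Hi (i + 1) w' ∧ ev aa w * aa (fn i) ^ e = aa (fn i) ^ e * ev aa w' := by
  induction e with
  | zero => intro w h; exact ⟨w, h, by simp⟩
  | succ e ih =>
    intro w h
    obtain ⟨w1, h1, h2⟩ := ih h
    obtain ⟨w2, h3, h4⟩ := move1 h1
    refine ⟨w2, h3, ?_⟩
    rw [pow_succ, ← mul_assoc, h2, mul_assoc, h4, mul_assoc]

theorem move3 {i : ℕ} (hi : i < 10) : ∀ {w : List ℕ}, Hi i w →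
    ∃ e < pp i, ∃ w', Hi (i + 1) w' ∧ ev aa w = aa (fn i) ^ e * ev aa w' := by
  obtain ⟨r1, -, -, r2, r3⟩ := rl1 i hi
  intro w
  induction w with
  | nil => intro _; exact ⟨0, r2, [], fun g hg => by simp at hg, by simp⟩
  | cons g w ih =>
    intro h
    obtain ⟨e, he, w', h1, h2⟩ := ih h.tail
    obtain ⟨hg1, hg2⟩ := h g List.mem_cons_self
    rcases hg1.eq_or_lt with rfl | hg
    · rcases (Nat.succ_le_of_lt he).eq_or_lt with h3 | h3
      · have h5 := rel_aa _ r1
        simp only [ev_replicate] at h5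
        refine ⟨0, r2, pwr i ++ w', Hi.append r3 h1, ?_⟩
        rw [ev_cons, h2, ← mul_assoc, ← pow_succ', pow_zero, one_mul, ev_append, ← h5, ← h3]
      · exact ⟨e + 1, h3, w', h1, by rw [ev_cons, h2, ← mul_assoc, ← pow_succ']⟩
    · obtain ⟨w1, h3, h4⟩ := move2 (i := i) e (w := [g]) (fun x hx => by
        rw [List.mem_singleton] at hx; subst hx; exact ⟨hg, hg2⟩)
      refine ⟨e, he, w1 ++ w', h3.append h1, ?_⟩
      simp only [ev_cons, ev_nil, mul_one] at h4
      rw [ev_cons, h2, ← mul_assoc, h4, ev_append, mul_assoc]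

def nfw : ℕ → ℕ → ℕ → List ℕ
  | 0, _, _ => []
  | k + 1, i, x => List.replicate (x % pp i) i ++ nfw k (i + 1) (x / pp i)

def sz : ℕ → ℕ → ℕ
  | 0, _ => 1
  | k + 1, i => pp i * sz k (i + 1)

theorem move4 : ∀ k i : ℕ, i + k = 10 → ∀ w, Hi i w →
    ∃ x < sz k i, ev aa w = ev aa (nfw k i x) := by
  intro k
  induction k with
  | zero =>
    intro i hi w hw
    cases w with
    | nil => exact ⟨0, Nat.one_pos, rfl⟩
    | cons g w => have := hw g List.mem_cons_self; omega
  | succ k ih =>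
    intro i hi w hw
    obtain ⟨e, he, w', h1, h2⟩ := move3 (by omega) hw
    obtain ⟨x, hx, h3⟩ := ih (i + 1) (by omega) w' h1
    refine ⟨e + pp i * x, ?_, ?_⟩
    · have : pp i * (x + 1) ≤ pp i * sz k (i + 1) := Nat.mul_le_mul_left _ hx
      rw [sz]; nlinarith
    · rw [nfw, Nat.add_mul_mod_self_left, Nat.mod_eq_of_lt he,
        Nat.add_mul_div_left _ _ (by omega), Nat.div_eq_of_lt he, zero_add, ev_append,
        ev_replicate, h2, h3]

def wd (x : ℕ) : List ℕ := nfw 10 0 x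

theorem inv_word : ∀ w, Hi 0 w → ∃ w', Hi 0 w' ∧ (ev aa w)⁻¹ = ev aa w' := by
  intro w
  induction w with
  | nil => intro h; exact ⟨[], h, by simp⟩
  | cons g w ih =>
    intro h
    obtain ⟨w', h1, h2⟩ := ih h.tail
    obtain ⟨-, hg⟩ := h g List.mem_cons_self
    obtain ⟨-, r1, r2, -⟩ := rl1 g hg
    have h5 := rel_aa _ r1
    simp only [ev_replicate, ev_nil] at h5
    refine ⟨w' ++ List.replicate (od g - 1) g, h1.append fun x hx => ?_, ?_⟩
    · rw [List.eq_of_mem_replicate hx]; exact ⟨Nat.zero_le _, hg⟩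
    · rw [ev_cons, mul_inv_rev, h2, ev_append, ev_replicate]
      congr 1
      rw [inv_eq_iff_mul_eq_one, ← pow_succ', Nat.sub_add_cancel r2, h5]

theorem exists_word (g : GG) : ∃ w, Hi 0 w ∧ g = ev aa w := by
  have hg : g ∈ Subgroup.closure (Set.range aa) := by
    have := PresentedGroup.closure_range_of rels
    change Subgroup.closure (Set.range aa) = ⊤ at this
    rw [this]; trivial
  induction hg using Subgroup.closure_induction with
  | mem x hx =>
    obtain ⟨i, rfl⟩ := hx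
    refine ⟨[i.val], fun g hg => ?_, by simp [ev_cons, fn_val]⟩
    rw [List.mem_singleton] at hg; subst hg; exact ⟨Nat.zero_le _, i.2⟩
  | one => exact ⟨[], fun g hg => by simp at hg, rfl⟩
  | mul x y _ _ hx hy =>
    obtain ⟨v, h1, rfl⟩ := hx
    obtain ⟨w, h2, rfl⟩ := hy
    exact ⟨v ++ w, h1.append h2, (ev_append _ _ _).symm⟩
  | inv x _ hx =>
    obtain ⟨w, h1, rfl⟩ := hx
    exact inv_word w h1

theorem exists_nf (g : GG) : ∃ x < 1536, g = ev aa (wd x) := by
  obtain ⟨w, h1, rfl⟩ := exists_word g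
  exact move4 10 0 rfl w h1

end Pool.Agent.H.MP_058405_al
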