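import Mathlib
import Pool.Agent.H.MP_058405_al.B

namespace Pool.Agent.H.MP_058405_al

open Matrix

def dg (t w k : ℕ) : ℕ := (t >>> (w * k)) % 2 ^ w

def tw (T : ℕ → ℕ → ℕ) (m : ℕ) (w : List ℕ) (x : ℕ) : ℕ :=
  w.foldr (fun g y => T (g % 10) y % m) x

def fT (T : ℕ → ℕ → ℕ) (m : ℕ) (hm : 0 < m) (i : Fin 10) : Function.End (Fin m) :=
  fun x => ⟨T i x % m, Nat.mod_lt _ hm⟩

theorem ev_fT (T : ℕ → ℕ → ℕ) (m : ℕ) (hm : 0 < m) (w : List ℕ) (x : Fin m) :
    (ev (fT T m hm) w x).val = tw T m w x := by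
  induction w with
  | nil => rfl
  | cons g w ih =>
    rw [ev_cons]
    change T (g % 10) (ev (fT T m hm) w x).val % m = _
    rw [ih]; rfl

def relOK (T : ℕ → ℕ → ℕ) (m n : ℕ) : Bool :=
  rl.all fun x => (List.range n).all fun k => tw T m x.1 k == tw T m x.2 k

theorem exists_act (T : ℕ → ℕ → ℕ) (m : ℕ) (hm : 0 < m) (h : relOK T m m = true) :
    ∃ ψ : GG →* Function.End (Fin m), ∀ w x, (ψ (ev aa w) x).val = tw T m w x := by
  obtain ⟨ψ, hψ⟩ := exists_hom (fT T m hm) (by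
    intro x hx
    funext k
    apply Fin.ext
    rw [ev_fT, ev_fT]
    simp only [relOK, List.all_eq_true, List.mem_range, beq_iff_eq] at h
    exact h x hx k k.2)
  exact ⟨ψ, fun w x => by rw [hψ, ev_fT]⟩

def vec (d : RD) (k i : ℕ) : ℤ := (dg d.V 3 (k * d.n + i) : ℤ) - 3

def pm (d : RD) (g k : ℕ) : ℕ := dg d.P 6 (g * d.r + k)

def mat (d : RD) (g : Fin 10) : Matrix (Fin d.n) (Fin d.n) ℚ :=
  Matrix.of fun i j => (vec d (pm d g j % d.r) i : ℚ)

def ok (d : RD) : Bool :=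
  decide (d.n ≤ d.r) && decide (0 < d.r) &&
  ((List.range d.n).all fun j => (List.range d.n).all fun i =>
    vec d j i == if i = j then 1 else 0) &&
  ((List.range d.r).all fun k => (List.range 10).all fun g => (List.range d.n).all fun i =>
    (∑ j ∈ (Finset.range d.n).filter (fun j => vec d k j ≠ 0),
      vec d (pm d g j % d.r) i * vec d k j) == vec d (pm d g k % d.r) i) &&
  relOK (pm d) d.r d.n

def ch (d : RD) (w : List ℕ) : ℤ := ∑ j ∈ Finset.range d.n, vec d (tw (pm d) d.r w j) j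

theorem exists_rep (d : RD) (h : ok d = true) :
    ∃ ρ : GG →* Matrix (Fin d.n) (Fin d.n) ℚ, ∀ w, (ρ (ev aa w)).trace = ch d w := by
  simp only [ok, relOK, Bool.and_eq_true, decide_eq_true_eq, List.all_eq_true, List.mem_range,
    beq_iff_eq] at h
  obtain ⟨⟨⟨⟨h1, h2⟩, h3⟩, h4⟩, h5⟩ := h
  let v : ℕ → Fin d.n → ℚ := fun k j => (vec d k j : ℚ)
  have key : ∀ w, ∀ k < d.r, tw (pm d) d.r w k < d.r ∧
      ev (mat d) w *ᵥ v k = v (tw (pm d) d.r w k) := by
    intro w k hk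
    induction w with
    | nil => exact ⟨hk, by simp [tw]⟩
    | cons g w ih =>
      refine ⟨Nat.mod_lt _ h2, ?_⟩
      rw [ev_cons, ← Matrix.mulVec_mulVec, ih.2]
      funext i
      have := h4 _ ih.1 (g % 10) (Nat.mod_lt _ (by norm_num)) i i.2
      rw [Finset.sum_filter_of_ne (fun j _ hj => right_ne_zero_of_mul hj),
        Finset.sum_range] at this
      have e := congrArg (fun z : ℤ => (z : ℚ)) this
      push_cast at e
      exact e
  have ent : ∀ w (i j : Fin d.n), ev (mat d) w i j = (vec d (tw (pm d) d.r w j) i : ℚ) := by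
    intro w i j
    have e := congrFun (key w j (lt_of_lt_of_le j.2 h1)).2 i
    have hv : v j = Pi.single j 1 := by
      funext i'
      simp only [v, h3 j j.2 i' i'.2, Pi.single_apply, Fin.ext_iff]
      split_ifs <;> simp
    rw [hv, Matrix.mulVec_single_one] at e
    exact e
  obtain ⟨ρ, hρ⟩ := exists_hom (mat d) (by
    intro x hx
    ext i j
    rw [ent, ent, h5 x hx j j.2])
  refine ⟨ρ, fun w => ?_⟩
  rw [hρ, ch, Finset.sum_range]
  push_cast
  exact Finset.sum_congr rfl fun j _ => ent w j j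

def LL (g x : ℕ) : ℕ := dg (LTab g) 11 x

def T3 (g x : ℕ) : ℕ := if g = 0 then [0, 2, 1].getD x 0 else if g = 1 then x + 1 else x

end Pool.Agent.H.MP_058405_al
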