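import Mathlib
import Pool.Agent.H.MP_058405_al.C

namespace Pool.Agent.H.MP_058405_al

theorem k_rel : relOK LL 1536 1536 = true := by decide +kernel

theorem k_rel3 : relOK T3 3 3 = true := by decide +kernel

theorem k_nf : ((List.range 1536).all fun x => tw LL 1536 (wd x) 0 == x) = true := by
  decide +kernel

theorem k_cls : ((List.range 1536).all fun x =>
    decide (dg CT 6 x < 37) && (x == 0 || decide (0 < dg CT 6 x)) &&
    tw LL 1536 (wd (dg UT 11 x) ++ wd x) 0 ==
      tw LL 1536 (wd (dg RT 11 (dg CT 6 x)) ++ wd (dg UT 11 x)) 0) = true := by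
  decide +kernel

theorem k_card : ∑ x ∈ Finset.range 1536, (if tw T3 3 (wd x) 0 = 0 then 1 else 0) = 512 := by
  decide +kernel

theorem k_nonreal : ((List.range 1536).all fun x => tw T3 3 (wd x) 0 != 0 ||
    tw LL 1536 (wd 120 ++ wd x ++ wd 120) 0 != x) = true := by
  decide +kernel

end Pool.Agent.H.MP_058405_al
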