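import Mathlib
import Pool.Agent.H.MP_058405_al.C

namespace Pool.Agent.H.MP_058405_al

theorem k_ok1 : ((List.range 34).all fun k => ok (rd k)) = true := by decide +kernel

theorem k_ok34 : ok (rd 34) = true := by decide +kernel

theorem k_ok35 : ok (rd 35) = true := by decide +kernel

theorem k_ok36 : ok (rd 36) = true := by decide +kernel

theorem k_ch : ((List.range 37).all fun k => k == 0 ||
    (∑ i ∈ Finset.range 37, ((rd i).n : ℤ) * ch (rd i) (wd (dg RT 11 k))) == 0) = true := by
  decide +kernel

theorem k_sq : ∑ i ∈ Finset.range 37, (rd i).n * (rd i).n = 1536 := by decide +kernel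

end Pool.Agent.H.MP_058405_al
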