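import Mathlib
import Pool.Agent.H.MP_058405_al.A
import Pool.Agent.H.MP_058405_al.K1
import Pool.Agent.H.MP_058405_al.K2

namespace Pool.Agent.H.MP_058405_al

theorem tw_append (T : ℕ → ℕ → ℕ) (m : ℕ) (v w : List ℕ) (x : ℕ) :
    tw T m (v ++ w) x = tw T m v (tw T m w x) := by
  simp [tw, List.foldr_append]

theorem tw_wd {x : ℕ} (hx : x < 1536) : tw LL 1536 (wd x) 0 = x := by
  have := k_nf
  simp only [List.all_eq_true, List.mem_range, beq_iff_eq] at this
  exact this x hx

theorem ev_eq_iff (v w : List ℕ) : ev aa v = ev aa w ↔ tw LL 1536 v 0 = tw LL 1536 w 0 := by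
  obtain ⟨ψ, hψ⟩ := exists_act LL 1536 (by norm_num) k_rel
  have h0 : ((0 : Fin 1536) : ℕ) = 0 := rfl
  constructor
  · intro h
    rw [← h0, ← hψ, ← hψ, h]
  · intro h
    obtain ⟨x, hx, h1⟩ := exists_nf (ev aa v)
    obtain ⟨y, hy, h2⟩ := exists_nf (ev aa w)
    have e1 := hψ v 0
    have e2 := hψ w 0
    rw [h1, hψ, h0, tw_wd hx] at e1
    rw [h2, hψ, h0, tw_wd hy] at e2
    rw [h1, h2, e1, e2, h]

def nf (x : Fin 1536) : GG := ev aa (wd x)

theorem nf_bij : Function.Bijective nf := by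
  constructor
  · intro x y h
    rw [nf, nf, ev_eq_iff, tw_wd x.2, tw_wd y.2] at h
    exact Fin.ext h
  · intro g
    obtain ⟨x, hx, h⟩ := exists_nf g
    exact ⟨⟨x, hx⟩, h.symm⟩

instance : Finite GG := Finite.of_surjective nf nf_bij.2

theorem card_GG : Nat.card GG = 1536 := by
  rw [← Nat.card_congr (Equiv.ofBijective nf nf_bij)]; simp

theorem all_ok (k : ℕ) (hk : k < 37) : ok (rd k) = true := by
  have := k_ok1
  simp only [List.all_eq_true, List.mem_range] at this
  by_cases h : k < 34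
  · exact this k h
  · have : k = 34 ∨ k = 35 ∨ k = 36 := by omega
    rcases this with rfl | rfl | rfl
    exacts [k_ok34, k_ok35, k_ok36]

theorem GG_split : ∃ (ι : Type) (_ : Fintype ι) (n : ι → ℕ),
    Nonempty (MonoidAlgebra ℚ GG ≃ₐ[ℚ] ((i : ι) → Matrix (Fin (n i)) (Fin (n i)) ℚ)) := by
  haveI := Fintype.ofFinite GG
  choose ρ hρ using fun i : Fin 37 => exists_rep (rd i) (all_ok i i.2)
  refine ⟨Fin 37, inferInstance, fun i => (rd i).n, split_of_reps _ ρ ?_ ?_⟩
  · intro g hg
    obtain ⟨x, hx, rfl⟩ := exists_nf g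
    have h1 := k_cls
    simp only [List.all_eq_true, List.mem_range, Bool.and_eq_true, decide_eq_true_eq,
      Bool.or_eq_true, beq_iff_eq] at h1
    obtain ⟨⟨a1, a2⟩, a3⟩ := h1 x hx
    have hx0 : x ≠ 0 := by
      rintro rfl
      exact hg rfl
    have a4 := a2.resolve_left hx0
    rw [← ev_eq_iff, ev_append, ev_append] at a3
    have h2 := k_ch
    simp only [List.all_eq_true, List.mem_range, Bool.or_eq_true, beq_iff_eq] at h2
    have a5 := (h2 _ a1).resolve_left a4.ne'
    rw [Finset.sum_range] at a5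
    have a6 := congrArg (fun z : ℤ => (z : ℚ)) a5
    push_cast at a6
    rw [← a6]
    refine Finset.sum_congr rfl fun i _ => ?_
    rw [← hρ]
    congr 1
    have : ev aa (wd x) = (ev aa (wd (dg UT 11 x)))⁻¹ *
        (ev aa (wd (dg RT 11 (dg CT 6 x))) * ev aa (wd (dg UT 11 x))) := by
      rw [← a3, inv_mul_cancel_left]
    rw [this, map_mul, Matrix.trace_mul_comm, ← map_mul, mul_inv_cancel_right]
  · have := k_sq
    rw [Finset.sum_range] at this
    rw [this, ← Nat.card_eq_fintype_card, card_GG]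

theorem exists_P : ∃ P : Sylow 2 GG, ∃ g : (P : Subgroup GG), ∀ u : (P : Subgroup GG),
    u * g ≠ g⁻¹ * u := by
  obtain ⟨ψ, hψ⟩ := exists_act T3 3 (by norm_num) k_rel3
  let H : Subgroup GG :=
    { carrier := {g | ψ g 0 = 0}
      one_mem' := by
        change ψ 1 0 = 0
        rw [map_one]; rfl
      mul_mem' := fun {a b} ha hb => by
        change ψ (a * b) 0 = 0
        rw [map_mul]
        change ψ a (ψ b 0) = 0
        rw [show ψ b 0 = 0 from hb]; exact ha
      inv_mem' := fun {a} ha => by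
        change ψ a⁻¹ 0 = 0
        have : ψ (a⁻¹ * a) 0 = 0 := by rw [inv_mul_cancel, map_one]; rfl
        rw [map_mul] at this
        change ψ a⁻¹ (ψ a 0) = 0 at this
        rwa [show ψ a 0 = 0 from ha] at this }
  have hH : ∀ x : ℕ, ev aa (wd x) ∈ H ↔ tw T3 3 (wd x) 0 = 0 := by
    intro x
    change ψ (ev aa (wd x)) 0 = 0 ↔ _
    rw [Fin.ext_iff, hψ]; rfl
  have hc : Nat.card H = 512 := by
    have e : {x : Fin 1536 // tw T3 3 (wd x) 0 = 0} ≃ H :=
      (Equiv.ofBijective nf nf_bij).subtypeEquiv fun x => (hH x).symm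
    rw [← Nat.card_congr e, Nat.card_eq_fintype_card, Fintype.card_subtype, Finset.card_filter,
      ← k_card, Finset.sum_range]
  haveI : Fact (Nat.Prime 2) := ⟨Nat.prime_two⟩
  have hf : (1536 : ℕ).factorization 2 = 9 := by
    rw [show (1536 : ℕ) = 2 ^ 9 * 3 by norm_num, Nat.factorization_mul (by norm_num) (by norm_num),
      Nat.Prime.factorization_pow Nat.prime_two, Nat.Prime.factorization Nat.prime_three]
    simp
  refine ⟨Sylow.ofCard H (by rw [hc, card_GG, hf]; norm_num),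
    ⟨ev aa (wd 120), (hH 120).mpr (by decide +kernel)⟩, ?_⟩
  rintro ⟨u, hu⟩ h
  obtain ⟨x, hx, rfl⟩ := exists_nf u
  have h1 := congrArg Subtype.val h
  simp only [Subgroup.coe_mul, Subgroup.coe_inv] at h1
  have h2 : ev aa (wd 120 ++ wd x ++ wd 120) = ev aa (wd x) := by
    rw [ev_append, ev_append, mul_assoc, h1, mul_inv_cancel_left]
  rw [ev_eq_iff, tw_wd hx] at h2
  have h3 := k_nonreal
  simp only [List.all_eq_true, List.mem_range, Bool.or_eq_true, bne_iff_ne] at h3
  rcases h3 x hx with h4 | h4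
  · exact h4 ((hH x).mp hu)
  · exact h4 h2

end Pool.Agent.H.MP_058405_al
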